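import Pool.Agent.SOR.Stmts2

/-!
# Squad SOR, row OOT: the sum over the orbits of `⟨a, T⟩`
-/

open scoped BigOperators

noncomputable section

namespace Pool.Agent.SOR.H82

theorem av_comm {Y : Type} (s t : Equiv.Perm Y) (hst : s * t = t * s) (f : Y → ℚ) (y : Y) :
    av s t f y = av t s f y := by
  unfold av
  rw [Finset.sum_comm, mul_comm (orderOf s : ℚ) (orderOf t : ℚ)]
  congr 1
  apply Finset.sum_congr rfl
  intro l _
  apply Finset.sum_congr rfl
  intro k _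
  have h : Commute s t := hst
  rw [(h.pow_pow k l).eq]

theorem aT {Γ : Type} [Group Γ] (D : Bd Γ) : D.a * D.T = D.T * D.a := by
  have h1 := D.r1
  have h2 : (D.a * D.b * D.a) * D.a = D.b * (D.a * D.b * D.a) := by
    rw [h1]
    simp only [mul_assoc]
    rw [← mul_assoc D.a D.b D.a, h1]
    simp only [mul_assoc]
  have h3 : (D.a * D.b * D.a) * D.b = D.a * (D.a * D.b * D.a) := by
    calc (D.a * D.b * D.a) * D.b = D.a * (D.b * D.a * D.b) := by simp only [mul_assoc]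
      _ = D.a * (D.a * D.b * D.a) := by rw [← h1]
  have h4 : D.T = (D.a * D.b * D.a) ^ 4 := by
    have h5 : (D.a * D.b) ^ 3 = (D.a * D.b * D.a) ^ 2 := by
      calc (D.a * D.b) ^ 3 = (D.a * D.b * D.a) * (D.b * D.a * D.b) := by
            simp only [pow_succ, pow_zero, one_mul, mul_assoc]
        _ = (D.a * D.b * D.a) ^ 2 := by rw [← h1, sq]
    unfold Bd.T
    rw [show (6 : ℕ) = 3 * 2 from rfl, pow_mul, h5, ← pow_mul]
  have h6 : (D.a * D.b * D.a) ^ 2 * D.a = D.a * (D.a * D.b * D.a) ^ 2 := by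
    rw [sq, mul_assoc, h2, ← mul_assoc, h3, mul_assoc]
  have h7 : Commute ((D.a * D.b * D.a) ^ 2) D.a := h6
  have h8 := h7.pow_left 2
  rw [← pow_mul] at h8
  rw [h4]
  exact h8.eq.symm

theorem oot (hAVE : AveStmt) (hHOL : HolStmt) (hIND : IndStmt) : OotStmt := by
  intro Γ Y _ _ R D i ρ₁ ρ₂ hρ₁ hρ₂ μ₁ μ₂ κ₁ κ₂ hμ₁a hμ₁T hμ₂T hκ₁a hκ₂a hκ₂T hμ₁ hHμ₂ hHκ₁ hκ₂
    Δ g hΔa hΔ hgT hg δ m hE₁ hE₂
  have haT := aT D
  have hc : i D.a * i D.T = i D.T * i D.a := by rw [← map_mul, haT, map_mul]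
  have hc' : ∀ y, i D.a (i D.T y) = i D.T (i D.a y) := fun y => by
    have := congrArg (fun p : Equiv.Perm Y => p y) hc
    simpa using this
  obtain ⟨A1, A2, A3, -, A5, -, -⟩ := hAVE Y (i D.a) (i D.T) hc
  obtain ⟨B1, -, -, -, -, B6, B7⟩ := hAVE Y (i D.T) (i D.a) hc.symm
  have hμ₂a : ∀ y, μ₂ (i D.a y) = μ₂ y := hHμ₂.inv
  have hκ₁T : ∀ y, κ₁ (i D.T y) = κ₁ y := hHκ₁.inv
  set G : Y → ℚ := av (i D.a) (i D.T) g with hG
  set E : Y → ℚ := av (i D.a) (i D.T) Δ with hEdef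
  -- the first exact pair
  have hX₁ : Ex R i ρ₁ D.a D.T μ₁ (fun y => κ₁ y + E y) := by
    have h := hHOL Γ Y R i ρ₁ hρ₁ D.a D.T haT μ₁ (fun y => κ₁ y + Δ y) hμ₁a hμ₁T hμ₁
      (fun y => by simp only [hκ₁a, hΔa]) hΔ
    have h2 : av (i D.a) (i D.T) (fun y => κ₁ y + Δ y) = fun y => κ₁ y + E y := by
      funext y
      rw [A5 κ₁ Δ y, A2 κ₁ hκ₁a hκ₁T y]
    rw [h2] at h
    exact h
  -- the second exact pair
  have hone : ∀ y, ρ₂ 1 y ∈ R := by
    intro y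
    have h := hρ₂ 1 1 y
    rw [mul_one, map_one, Equiv.Perm.one_apply] at h
    have h2 := R.neg_mem h
    have h3 : -(ρ₂ 1 y - ρ₂ 1 y - ρ₂ 1 y) = ρ₂ 1 y := by ring
    rwa [h3] at h2
  have hX₂ : Ex R i ρ₂ D.T D.a κ₂ (fun y => - G y) := by
    have h := hHOL Γ Y R i ρ₂ hρ₂ D.T D.a haT.symm κ₂ (fun y => - g (i D.a y)) hκ₂T hκ₂a hκ₂
      (fun y => by rw [hc' y, hgT]) (fun y => by
        have h1 := hρ₂ D.a⁻¹ D.a y
        rw [inv_mul_cancel] at h1
        have h2 := hg (i D.a y)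
        have h3 := hone y
        have h4 : ρ₂ D.a y - -g (i D.a y) =
            ρ₂ 1 y - (ρ₂ 1 y - ρ₂ D.a⁻¹ (i D.a y) - ρ₂ D.a y) -
              (ρ₂ D.a⁻¹ (i D.a y) - g (i D.a y)) := by ring
        rw [h4]
        exact R.sub_mem (R.sub_mem h3 h1) h2)
    have h2 : av (i D.T) (i D.a) (fun y => - g (i D.a y)) = fun y => - G y := by
      funext y
      rw [B6 (fun y => g (i D.a y)) y, (B7 g y).2, hG, av_comm _ _ hc]
    rw [h2] at h
    exact h
  -- the sum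
  have hs : ∑ y, Δ y * (g y + μ₂ y) = ∑ y, E y * (G y + μ₂ y) := by
    rw [A3 Δ (fun y => g y + μ₂ y) hΔa (fun y => by simp only [hgT, hμ₂T])]
    apply Finset.sum_congr rfl
    intro y _
    rw [A5 g μ₂ y, A2 μ₂ hμ₂a hμ₂T y]
  have hδa : ∀ y, δ (i D.a y) = δ y := by
    intro y
    have := hE₁.qs y
    simp only [hκ₁a] at this
    linarith
  have hδT : ∀ y, δ (i D.T y) = δ y := by
    intro y
    have := hE₁.qt y
    simp only [hκ₁T] at this
    linarith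
  have hzp : ∀ (x z : Γ) (k l : ℤ) (y : Y), ((i x) ^ k * (i z) ^ l) y = i (x ^ k * z ^ l) y := by
    intro x z k l y
    rw [map_mul, map_zpow, map_zpow]
  have hcz : ∀ k l : ℤ, D.a ^ k * D.T ^ l = D.T ^ l * D.a ^ k := by
    intro k l
    have h : Commute D.a D.T := haT
    exact (h.zpow_zpow k l).eq
  have h1 : ∑ y, (E y - δ y) * (μ₂ y + G y) ∈ R := by
    apply hIND Y R (i D.T) (i D.a) hc.symm (fun y => E y - δ y) (fun y => μ₂ y + G y)
    · intro y
      simp only [hδT, hEdef, (A1 Δ y).2]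
    · intro y
      simp only [hδa, hEdef, (A1 Δ y).1]
    · intro y
      simp only [hμ₂T, hG, (A1 g y).2]
    · intro y
      simp only [hμ₂a, hG, (A1 g y).1]
    · intro y k l hy
      rw [hzp, ← hcz l k] at hy
      have h1 := hX₁.ex y l k hy
      have h2 := hE₁.ex y l k hy
      have h3 : (k : ℚ) * (E y - δ y) =
          (ρ₁ (D.a ^ l * D.T ^ k) y - l * μ₁ y - k * (κ₁ y + δ y)) -
          (ρ₁ (D.a ^ l * D.T ^ k) y - l * μ₁ y - k * (κ₁ y + E y)) := by ring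
      rw [h3]
      exact R.sub_mem h2 h1
    · intro y l hy
      have hy' : i (D.a ^ l) y = y := by rw [map_zpow]; exact hy
      have h1 := hHμ₂.hol y l hy'
      have h2 := hX₂.ex y 0 l (by rw [zpow_zero, one_mul]; exact hy')
      rw [zpow_zero, one_mul] at h2
      have h3 : (l : ℚ) * (μ₂ y + G y) = (ρ₂ (D.a ^ l) y - ((0 : ℤ) : ℚ) * κ₂ y - l * (- G y)) -
          (ρ₂ (D.a ^ l) y - l * μ₂ y) := by push_cast; ring
      rw [h3]
      exact R.sub_mem h2 h1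
  have h2 : ∑ y, (G y + m y) * δ y ∈ R := by
    apply hIND Y R (i D.a) (i D.T) hc (fun y => G y + m y) δ
    · intro y
      simp only [hE₂.ps y, hG, (A1 g y).1]
    · intro y
      simp only [hE₂.pt y, hG, (A1 g y).2]
    · exact hδa
    · exact hδT
    · intro y k l hy
      rw [hzp] at hy
      have h1 := hE₂.ex y k l hy
      rw [hcz] at hy h1
      have h2 := hX₂.ex y l k hy
      have h3 : (k : ℚ) * (G y + m y) =
          (ρ₂ (D.T ^ l * D.a ^ k) y - l * κ₂ y - k * (- G y)) -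
          (ρ₂ (D.T ^ l * D.a ^ k) y - k * m y - l * κ₂ y) := by ring
      rw [h3]
      exact R.sub_mem h2 h1
    · intro y l hy
      have hy' : i (D.T ^ l) y = y := by rw [map_zpow]; exact hy
      have h1 := hHκ₁.hol y l hy'
      have h2 := hE₁.ex y 0 l (by rw [zpow_zero, one_mul]; exact hy')
      rw [zpow_zero, one_mul] at h2
      have h3 : (l : ℚ) * δ y = (ρ₁ (D.T ^ l) y - l * κ₁ y) -
          (ρ₁ (D.T ^ l) y - ((0 : ℤ) : ℚ) * μ₁ y - l * (κ₁ y + δ y)) := by push_cast; ring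
      rw [h3]
      exact R.sub_mem h1 h2
  have h3 : ∑ y, Δ y * (g y + μ₂ y) - ∑ y, (μ₂ y - m y) * δ y =
      ∑ y, (E y - δ y) * (μ₂ y + G y) + ∑ y, (G y + m y) * δ y := by
    rw [hs, ← Finset.sum_add_distrib, ← Finset.sum_sub_distrib]
    apply Finset.sum_congr rfl
    intro y _
    ring
  rw [h3]
  exact R.add_mem h1 h2

end Pool.Agent.SOR.H82
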